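import Pool.Agent.W128.VA.Stm

/-!
VA-RLOC for project VA (MP_11a9fb_al): local fields have `R = 0` for large `k`.
-/

namespace Pool.Agent.W577.VA

open Pool.Agent.W128.VA Finset

theorem cf_nat (N j : ℕ) : cf (N : ℤ) j = (-1) ^ j * (N.choose j : ℂ) := by
  unfold cf
  rw [Ring.choose_natCast]
  push_cast
  rfl

theorem refl_sum {W : Type} [AddCommGroup W] [Module ℂ W] (a b : ℤ → Module.End ℂ W)
    (N : ℕ) (m n : ℤ) (w : W) :
    ∑ j ∈ range (N + 1), ((-1 : ℂ) ^ j * (N.choose j : ℂ)) •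
      (((-1 : ℂ) ^ (N : ℤ)) • b (n + N - j) (a (m + j) w)) =
    ∑ j ∈ range (N + 1), ((-1 : ℂ) ^ j * (N.choose j : ℂ)) • b (n + j) (a (m + N - j) w) := by
  rw [← Finset.sum_range_reflect]
  apply Finset.sum_congr rfl
  intro j hj
  have hjN : j ≤ N := Nat.lt_succ_iff.mp (Finset.mem_range.mp hj)
  have h1 : N + 1 - 1 - j = N - j := by omega
  have h2 : ((N - j : ℕ) : ℤ) = (N : ℤ) - j := by omega
  rw [h1, Nat.choose_symm hjN, h2, smul_smul, zpow_natCast]
  have h3 : n + (N : ℤ) - ((N : ℤ) - j) = n + j := by ring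
  have h4 : m + ((N : ℤ) - j) = m + N - j := by ring
  rw [h3, h4]
  congr 1
  have h5 : (-1 : ℂ) ^ N = (-1) ^ (N - j) * (-1) ^ j := by
    rw [← pow_add]
    congr 1
    omega
  have h6 : ((-1 : ℂ) ^ (N - j)) * (-1) ^ (N - j) = 1 := by
    rw [← mul_pow]
    norm_num
  calc (-1 : ℂ) ^ (N - j) * (N.choose j : ℂ) * (-1) ^ N
      = (((-1 : ℂ) ^ (N - j)) * (-1) ^ (N - j)) * ((-1) ^ j * (N.choose j : ℂ)) := by
        rw [h5]; ring
    _ = (-1) ^ j * (N.choose j : ℂ) := by rw [h6, one_mul]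

theorem base {W : Type} [AddCommGroup W] [Module ℂ W] (a b : Fld W) (N : ℕ)
    (h : Loc a.m b.m N) (m n : ℤ) : R a b (N : ℤ) m n = 0 := by
  ext w
  rw [R_apply a b (N : ℤ) m n w (N + 1)]
  · have h1 := h m n w
    have h2 : ∀ j ∈ range (N + 1), tm a.m b.m (N : ℤ) m n j w =
        ((-1 : ℂ) ^ j * (N.choose j : ℂ)) • a.m (m + N - j) (b.m (n + j) w) -
        ((-1 : ℂ) ^ j * (N.choose j : ℂ)) •
          (((-1 : ℂ) ^ (N : ℤ)) • b.m (n + N - j) (a.m (m + j) w)) := by
      intro j _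
      unfold tm
      rw [cf_nat, smul_sub]
    rw [Finset.sum_congr rfl h2, Finset.sum_sub_distrib, refl_sum a.m b.m N m n w,
      ← Finset.sum_sub_distrib]
    rw [← Finset.sum_congr rfl (fun j _ => smul_sub _ _ _), h1]
    rfl
  · intro j hj
    unfold tm
    rw [cf_nat, Nat.choose_eq_zero_of_lt (by omega), Nat.cast_zero, mul_zero, zero_smul]

theorem main : S_RREC → S_RLOC := by
  intro hR W _ _ a b N h k m n hk
  revert m n
  induction k, hk using Int.le_induction with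
  | base => exact fun m n => base a b N h m n
  | succ k hk ih =>
    intro m n
    rw [hR W a b k m n, ih, ih, sub_zero]

end Pool.Agent.W577.VA

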